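import Pool.Agent.W770.KP.Stm

/-!
# KP-ILS0: interpolation with slack, coordinate direction
-/

set_option autoImplicit false

open scoped Classical

namespace Pool.Agent.W605.KP.ILS0

open Pool.Agent.W770.KP MvPolynomial

/-- polynomials which are diagonal on a set of points are independent -/
theorem diag {F σ : Type} [Field F] (Z Z' : Finset (σ → F)) (hZ : Z' ⊆ Z) (e : ℕ)
    (A : (σ → F) → MvPolynomial σ F) (hd : ∀ z ∈ Z', (A z).totalDegree ≤ e)
    (h1 : ∀ z ∈ Z', MvPolynomial.eval z (A z) ≠ 0)
    (h0 : ∀ z ∈ Z', ∀ z' ∈ Z', z' ≠ z → MvPolynomial.eval z' (A z) = 0) :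
    ∃ A' : Fin Z'.card → MvPolynomial σ F, (∀ s, (A' s).totalDegree ≤ e) ∧
      ∀ c : Fin Z'.card → F, (∀ z ∈ Z, MvPolynomial.eval z (lc A' c) = 0) → c = 0 := by
  refine ⟨fun s => A (Z'.equivFin.symm s).1, fun s => hd _ (Z'.equivFin.symm s).2, ?_⟩
  intro c hc
  funext s0
  have h := hc _ (hZ (Z'.equivFin.symm s0).2)
  unfold lc at h
  rw [map_sum, Finset.sum_eq_single s0] at h
  · rw [map_mul, eval_C] at h
    exact (mul_eq_zero.1 h).resolve_right (h1 _ (Z'.equivFin.symm s0).2)
  · intro s _ hs
    rw [map_mul, h0 _ (Z'.equivFin.symm s).2 _ (Z'.equivFin.symm s0).2, mul_zero]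
    intro h2
    apply hs
    have h3 := Subtype.ext h2
    exact (Z'.equivFin.symm.injective h3).symm
  · intro h2
    exact absurd (Finset.mem_univ s0) h2

theorem deg_lin {F σ : Type} [Field F] (i : σ) (a : F) :
    (X i - C a : MvPolynomial σ F).totalDegree ≤ 1 := by
  refine (totalDegree_sub _ _).trans ?_
  rw [totalDegree_X, totalDegree_C]
  simp

/-- the number of translates containing a point -/
theorem count {F : Type} [Field F] [Fintype F] (m : ℕ) (T : Finset F) (y : Fin m → F) :
    ((Finset.univ : Finset (Fin m → F)).filter (fun τ => ∀ i, y i - τ i ∈ T)).card =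
      T.card ^ m := by
  have h : (Finset.univ : Finset (Fin m → F)).filter (fun τ => ∀ i, y i - τ i ∈ T) =
      Fintype.piFinset (fun i => T.image (fun t => y i - t)) := by
    ext τ
    rw [Finset.mem_filter, Fintype.mem_piFinset]
    constructor
    · rintro ⟨-, h⟩ i
      rw [Finset.mem_image]
      exact ⟨_, h i, by ring⟩
    · intro h
      refine ⟨Finset.mem_univ _, fun i => ?_⟩
      obtain ⟨t, ht, ht'⟩ := Finset.mem_image.1 (h i)
      rw [← ht']
      have : y i - (y i - t) = t := by ring
      rw [this]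
      exact ht
  rw [h, Fintype.card_piFinset]
  have h2 : ∀ i : Fin m, (T.image (fun t => y i - t)).card = T.card := fun i =>
    Finset.card_image_of_injective _ (fun a b hab => by
      have : y i - a = y i - b := hab
      exact sub_right_injective this)
  rw [Finset.prod_congr rfl (fun i _ => h2 i), Finset.prod_const, Finset.card_univ,
    Fintype.card_fin]

/-- averaging over the translates -/
theorem average {F : Type} [Field F] [Fintype F] (m : ℕ) (Z : Finset (Fin (m + 1) → F))
    (T : Finset F) :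
    ∃ τ : Fin m → F, Z.card * T.card ^ m ≤
      (Z.filter (fun z => ∀ i : Fin m, z i.succ - τ i ∈ T)).card * Fintype.card F ^ m := by
  have h : ∃ τ ∈ (Finset.univ : Finset (Fin m → F)), Z.card * T.card ^ m ≤
      (Z.filter (fun z => ∀ i : Fin m, z i.succ - τ i ∈ T)).card * Fintype.card F ^ m := by
    apply Finset.exists_le_of_sum_le Finset.univ_nonempty
    rw [Finset.sum_const, Finset.card_univ, Fintype.card_fun, Fintype.card_fin, smul_eq_mul,
      ← Finset.sum_mul]
    have h1 : ∑ τ : Fin m → F, (Z.filter (fun z => ∀ i : Fin m, z i.succ - τ i ∈ T)).card =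
        Z.card * T.card ^ m := by
      simp only [Finset.card_filter]
      rw [Finset.sum_comm]
      have h2 : ∀ z ∈ Z, ∑ τ : Fin m → F, (if ∀ i : Fin m, z i.succ - τ i ∈ T then 1 else 0) =
          T.card ^ m := by
        intro z _
        rw [← Finset.card_filter]
        exact count m T (fun i => z i.succ)
      rw [Finset.sum_congr rfl h2, Finset.sum_const, smul_eq_mul]
    rw [h1, mul_comm]
  obtain ⟨τ, -, hτ⟩ := h
  exact ⟨τ, hτ⟩

theorem main : S_ILS0 := by
  intro m F _ _ Z d e hde heq hfib
  have hq : 0 < Fintype.card F := Fintype.card_pos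
  by_cases hd : d = 0
  · have hZ : Z = ∅ := by
      rw [Finset.eq_empty_iff_forall_notMem]
      intro z hz
      have h1 := hfib (fun i => z i.succ)
      rw [hd, Nat.le_zero, Finset.card_eq_zero, Finset.filter_eq_empty_iff] at h1
      apply h1 (Finset.mem_univ (z 0))
      have h2 : (Fin.cons (z 0) (fun i => z i.succ) : Fin (m + 1) → F) = z := Fin.cons_self_tail z
      rw [h2]
      exact hz
    refine ⟨0, fun _ => 0, fun s => s.elim0, ?_, fun c _ => funext fun s => s.elim0⟩
    rw [hZ]
    simp
  have hd1 : 1 ≤ d := Nat.one_le_iff_ne_zero.2 hd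
  obtain ⟨s, hs⟩ : ∃ s, s = (e - d) / m + 1 := ⟨_, rfl⟩
  have hsq : s ≤ Fintype.card F := by
    have := Nat.div_le_self (e - d) m
    omega
  have hms : m * (s - 1) ≤ e - d := by
    rw [hs, Nat.add_sub_cancel]
    exact Nat.mul_div_le (e - d) m
  obtain ⟨T, -, hT⟩ := Finset.exists_subset_card_eq (s := (Finset.univ : Finset F)) (n := s)
    (by rw [Finset.card_univ]; exact hsq)
  obtain ⟨τ, hτ⟩ := average m Z T
  obtain ⟨Z', hZ'⟩ : ∃ Z', Z' = Z.filter (fun z => ∀ i : Fin m, z i.succ - τ i ∈ T) := ⟨_, rfl⟩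
  rw [← hZ', hT] at hτ
  have hmem : ∀ z, z ∈ Z' ↔ z ∈ Z ∧ ∀ i : Fin m, z i.succ - τ i ∈ T := by
    intro z
    rw [hZ', Finset.mem_filter]
  let A : (Fin (m + 1) → F) → MvPolynomial (Fin (m + 1)) F := fun z =>
    (∏ i : Fin m, ∏ w ∈ T.erase (z i.succ - τ i), (X i.succ - C (τ i + w))) *
      ∏ z' ∈ Z'.filter (fun z' => (∀ i : Fin m, z' i.succ = z i.succ) ∧ z' ≠ z),
        (X 0 - C (z' 0))
  have Hdeg : ∀ z ∈ Z', (A z).totalDegree ≤ e := by
    intro z hz
    have hz' := (hmem z).1 hz
    have e1 : (∏ i : Fin m, ∏ w ∈ T.erase (z i.succ - τ i),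
        (X i.succ - C (τ i + w) : MvPolynomial (Fin (m + 1)) F)).totalDegree ≤ m * (s - 1) := by
      refine (totalDegree_finsetProd _ _).trans ?_
      have h2 : ∀ i ∈ (Finset.univ : Finset (Fin m)), (∏ w ∈ T.erase (z i.succ - τ i),
          (X i.succ - C (τ i + w) : MvPolynomial (Fin (m + 1)) F)).totalDegree ≤ s - 1 := by
        intro i _
        refine (totalDegree_finsetProd _ _).trans ?_
        refine (Finset.sum_le_sum (fun w _ => deg_lin i.succ (τ i + w))).trans ?_
        rw [Finset.sum_const, smul_eq_mul, mul_one, Finset.card_erase_of_mem (hz'.2 i), hT]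
      refine (Finset.sum_le_sum h2).trans ?_
      rw [Finset.sum_const, Finset.card_univ, Fintype.card_fin, smul_eq_mul]
    have e2 : (∏ z' ∈ Z'.filter (fun z' => (∀ i : Fin m, z' i.succ = z i.succ) ∧ z' ≠ z),
        (X 0 - C (z' 0) : MvPolynomial (Fin (m + 1)) F)).totalDegree ≤ d - 1 := by
      refine (totalDegree_finsetProd _ _).trans ?_
      refine (Finset.sum_le_sum (fun w _ => deg_lin 0 (w 0))).trans ?_
      rw [Finset.sum_const, smul_eq_mul, mul_one]
      have h3 := hfib (fun i => z i.succ)
      have h4 : ∀ z' : Fin (m + 1) → F, (∀ i : Fin m, z' i.succ = z i.succ) →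
          (Fin.cons (z' 0) (fun i => z i.succ) : Fin (m + 1) → F) = z' := by
        intro z' hz''
        have h5 : (fun i : Fin m => z i.succ) = Fin.tail z' := by
          funext i
          exact (hz'' i).symm
        rw [h5]
        exact Fin.cons_self_tail z'
      have h6 : (Z'.filter (fun z' => (∀ i : Fin m, z' i.succ = z i.succ) ∧ z' ≠ z)).card ≤
          ((Finset.univ.filter (fun t : F => (Fin.cons t (fun i => z i.succ) :
            Fin (m + 1) → F) ∈ Z)).erase (z 0)).card := by
        apply Finset.card_le_card_of_injOn (fun z' => z' 0)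
        · intro z' hz''
          have h7 := Finset.mem_filter.1 (Finset.mem_coe.1 hz'')
          apply Finset.mem_coe.2
          rw [Finset.mem_erase, Finset.mem_filter]
          refine ⟨?_, Finset.mem_univ _, ?_⟩
          · intro h8
            apply h7.2.2
            rw [← h4 z' h7.2.1, ← h4 z (fun _ => rfl)]
            have h9 : z' 0 = z 0 := h8
            rw [h9]
            rfl
          · rw [h4 z' h7.2.1]
            exact ((hmem z').1 h7.1).1
        · intro a ha b hb hab
          have ha' := Finset.mem_filter.1 (Finset.mem_coe.1 ha)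
          have hb' := Finset.mem_filter.1 (Finset.mem_coe.1 hb)
          rw [← h4 a ha'.2.1, ← h4 b hb'.2.1]
          have h9 : a 0 = b 0 := hab
          rw [h9]
      have h10 : z 0 ∈ Finset.univ.filter (fun t : F => (Fin.cons t (fun i => z i.succ) :
            Fin (m + 1) → F) ∈ Z) := by
        rw [Finset.mem_filter]
        refine ⟨Finset.mem_univ _, ?_⟩
        rw [h4 z (fun _ => rfl)]
        exact hz'.1
      rw [Finset.card_erase_of_mem h10] at h6
      omega
    refine (totalDegree_mul _ _).trans ?_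
    refine (Nat.add_le_add e1 e2).trans ?_
    omega
  have Hnz : ∀ z ∈ Z', MvPolynomial.eval z (A z) ≠ 0 := by
    intro z hz
    have hz' := (hmem z).1 hz
    simp only [A, map_mul, map_prod, map_sub, eval_X, eval_C]
    apply mul_ne_zero
    · apply Finset.prod_ne_zero_iff.2
      intro i _
      apply Finset.prod_ne_zero_iff.2
      intro w hw h
      apply (Finset.mem_erase.1 hw).1
      linear_combination -h
    · apply Finset.prod_ne_zero_iff.2
      intro z' hz'' h
      have h7 := Finset.mem_filter.1 hz''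
      apply h7.2.2
      funext i
      refine Fin.cases ?_ ?_ i
      · linear_combination -h
      · exact h7.2.1
  have Hz : ∀ z ∈ Z', ∀ z' ∈ Z', z' ≠ z → MvPolynomial.eval z' (A z) = 0 := by
    intro z hz z' hz' hne
    simp only [A, map_mul, map_prod, map_sub, eval_X, eval_C]
    by_cases htail : ∀ i : Fin m, z' i.succ = z i.succ
    · rw [mul_eq_zero]
      right
      apply Finset.prod_eq_zero (i := z')
      · rw [Finset.mem_filter]
        exact ⟨hz', htail, hne⟩
      · ring
    · push Not at htail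
      obtain ⟨i, hi⟩ := htail
      rw [mul_eq_zero]
      left
      apply Finset.prod_eq_zero (Finset.mem_univ i)
      apply Finset.prod_eq_zero (i := z' i.succ - τ i)
      · rw [Finset.mem_erase]
        refine ⟨fun h => hi ?_, ((hmem z').1 hz').2 i⟩
        linear_combination h
      · ring
  obtain ⟨A', hA1, hA2⟩ := diag Z Z' (by rw [hZ']; exact Finset.filter_subset _ _) e A Hdeg Hnz Hz
  refine ⟨Z'.card, A', hA1, ?_, hA2⟩
  have hτ' : (Z.card : ℝ) * (s : ℝ) ^ m ≤ (Z'.card : ℝ) * (Fintype.card F : ℝ) ^ m := by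
    exact_mod_cast hτ
  have hqr : (0 : ℝ) < (Fintype.card F : ℝ) := by exact_mod_cast hq
  have h1 : (Z.card : ℝ) * ((s : ℝ) / (Fintype.card F : ℝ)) ^ m ≤ (Z'.card : ℝ) := by
    rw [div_pow, ← mul_div_assoc, div_le_iff₀ (by positivity)]
    exact hτ'
  refine le_trans (mul_le_mul_of_nonneg_left ?_ (by positivity)) h1
  rcases Nat.eq_zero_or_pos m with hm | hm
  · subst hm
    simp
  · apply pow_le_pow_left₀ (by positivity)
    rw [div_le_div_iff₀ (by positivity) hqr]
    have h2 : e ≤ 2 * (m + 1) * s := by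
      have h3 : e - d < m * s := by
        rw [hs]
        exact Nat.lt_mul_div_succ (e - d) hm
      have h4 : 2 * (m + 1) * s = 2 * (m * s) + 2 * s := by ring
      omega
    have h3 : (e : ℝ) ≤ 2 * ((m : ℝ) + 1) * s := by exact_mod_cast h2
    calc (e : ℝ) * (Fintype.card F : ℝ) ≤ (2 * ((m : ℝ) + 1) * s) * (Fintype.card F : ℝ) :=
          mul_le_mul_of_nonneg_right h3 hqr.le
      _ = (s : ℝ) * (2 * ((m : ℝ) + 1) * (Fintype.card F : ℝ)) := by ring

end Pool.Agent.W605.KP.ILS0
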